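import Pool.Agent.Lib.MP_2d4879_an.Geom

/-!
Any two trapezoids with the same Dirichlet eigenvalues are congruent.
-/

open MeasureTheory

namespace Pool.Agent.Results.MP_2d4879_an.Trapezoids

/-- The `k`-th Dirichlet eigenvalue (`k ≥ 1`, counted with multiplicity) of `-Δ` on `Ω`, by the
min-max principle over compactly supported `C¹` functions. -/
noncomputable def dirichletEigenvalue (Ω : Set (EuclideanSpace ℝ (Fin 2))) (k : ℕ) : ℝ :=
  sInf {r : ℝ | ∃ V : Submodule ℝ (EuclideanSpace ℝ (Fin 2) → ℝ), Module.finrank ℝ V = k ∧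
    ∀ f ∈ V, ContDiff ℝ 1 f ∧ HasCompactSupport f ∧ tsupport f ⊆ Ω ∧
      ∫ x, ‖fderiv ℝ f x‖ ^ 2 ≤ r * ∫ x, f x ^ 2}

/-- `Ω` is the open region bounded by a nondegenerate convex quadrilateral `ABCD` whose sides
`AB` and `DC` are parallel. -/
def IsTrapezoid (Ω : Set (EuclideanSpace ℝ (Fin 2))) : Prop :=
  ∃ (A B C D : EuclideanSpace ℝ (Fin 2)) (t : ℝ), 0 < t ∧ AffineIndependent ℝ ![A, B, D] ∧
    C - D = t • (B - A) ∧ Ω = interior (convexHull ℝ {A, B, C, D})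

open Pool.Agent.Lib.MP_2d4879_an in
theorem result (Ω₁ Ω₂ : Set (EuclideanSpace ℝ (Fin 2))) (h₁ : IsTrapezoid Ω₁)
    (h₂ : IsTrapezoid Ω₂)
    (h : ∀ k : ℕ, 1 ≤ k → dirichletEigenvalue Ω₁ k = dirichletEigenvalue Ω₂ k) :
    ∃ φ : EuclideanSpace ℝ (Fin 2) ≃ᵢ EuclideanSpace ℝ (Fin 2), φ '' Ω₁ = Ω₂ := by
  obtain ⟨A, B, C, D, t, ht, hi, hC, rfl⟩ := h₁
  obtain ⟨A', B', C', D', t', ht', hi', hC', rfl⟩ := h₂
  obtain ⟨T, hT⟩ := quad_cong ht hi hC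
  obtain ⟨U, hU⟩ := quad_cong ht' hi' hC'
  have e := trap_hear (T := T) (U := U) fun k hk => by
    rw [← hT.adm_eq, ← hU.adm_eq]; exact h k hk
  exact (hT.trans (e ▸ hU.symm)).image

end Pool.Agent.Results.MP_2d4879_an.Trapezoids
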